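import Pool.Agent.Lib.MP_8c4e2c_gt.BN.Osc

/-!
# From `𝔟 = ℵ₁` to a strong coloring
-/

set_option autoImplicit false

namespace Pool.Agent.Lib.MP_8c4e2c_gt.BN

open Set Filter

lemma exists_dom (S : Set (ℕ → ℕ)) (hS : S.Countable) :
    ∃ g : ℕ → ℕ, Monotone g ∧ ∀ f ∈ S, ∀ᶠ n in atTop, f n ≤ g n := by
  rcases S.eq_empty_or_nonempty with h | h
  · exact ⟨fun _ => 0, monotone_const, by simp [h]⟩
  · obtain ⟨f, hf⟩ := hS.exists_eq_range h
    refine ⟨fun k => (Finset.range (k + 1) ×ˢ Finset.range (k + 1)).sup fun p => f p.1 p.2, ?_, ?_⟩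
    · intro k k' hk
      refine Finset.sup_mono ?_
      refine Finset.product_subset_product ?_ ?_ <;>
        exact Finset.range_subset_range.2 (by omega)
    · intro g hg
      rw [hf] at hg
      obtain ⟨m, rfl⟩ := hg
      filter_upwards [eventually_ge_atTop m] with n hn
      exact Finset.le_sup (f := fun p : ℕ × ℕ => f p.1 p.2) (b := (m, n)) (by
        simp only [Finset.mem_product, Finset.mem_range]
        omega)

variable {ι : Type} [LinearOrder ι]

/-- an unbounded chain from an unbounded family indexed by `ι` -/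
lemma exists_chain [WellFoundedLT ι] (hι : ∀ i : ι, (Iio i).Countable) (e : ι → ℕ → ℕ)
    (he : ∀ g : ℕ → ℕ, ∃ i, ¬ ∀ᶠ n in atTop, e i n ≤ g n) : ∃ f : ι → ℕ → ℕ, UnbChain f := by
  have hstep : ∀ (i : ι) (h : ∀ j, j < i → ℕ → ℕ), ∃ g : ℕ → ℕ, Monotone g ∧
      (∀ j (hj : j < i), ∀ᶠ n in atTop, h j hj n ≤ g n) ∧ ∀ᶠ n in atTop, e i n ≤ g n := by
    intro i h
    have : Countable (Iio i) := (hι i).to_subtype
    obtain ⟨g, hg, hg'⟩ := exists_dom (insert (e i) (range fun j : Iio i => h j.1 j.2))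
      ((countable_range _).insert _)
    exact ⟨g, hg, fun j hj => hg' _ (mem_insert_of_mem _ ⟨⟨j, hj⟩, rfl⟩), hg' _ (mem_insert _ _)⟩
  choose G hG1 hG2 hG3 using hstep
  set f : ι → ℕ → ℕ := (wellFounded_lt (α := ι)).fix G with hf
  have hfix : ∀ i, f i = G i fun j _ => f j := fun i => (wellFounded_lt (α := ι)).fix_eq G i
  refine ⟨f, ⟨?_, ?_, ?_⟩⟩
  · intro i
    rw [hfix]
    exact hG1 _ _
  · intro i j hij
    rw [hfix j]
    exact hG2 j (fun k _ => f k) i hij
  · intro g hg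
    obtain ⟨i, hi⟩ := he g
    apply hi
    have h1 : ∀ᶠ n in atTop, e i n ≤ f i n := by
      rw [hfix i]
      exact hG3 _ _
    filter_upwards [h1, hg i] with n h2 h3
    exact h2.trans h3

/-- A coloring `c` of pairs of elements of `ι` such that for every point-countable family of
`n`-tuples, indexed by an uncountable subset of `ι`, and every color `k` there are two tuples of the
family, one above the other, such that all pairs between them have color `k`. -/
def IsStrongColoring (c : ι → ι → ℕ) : Prop :=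
  ∀ (n : ℕ) (a : ι → Fin n → ι) (J : Set ι), ¬ J.Countable →
    (∀ ζ, {i | i ∈ J ∧ ∃ p, a i p ≤ ζ}.Countable) → ∀ k : ℕ, ∃ d ∈ J, ∃ j ∈ J, d < j ∧
      ∀ p q, a d p < a j q ∧ c (a d p) (a j q) = k

theorem exists_strongColoring [Uncountable ι] (hι : ∀ i : ι, (Iic i).Countable) {f : ι → ℕ → ℕ}
    (hf : UnbChain f) : ∃ c : ι → ι → ℕ, IsStrongColoring c := by
  refine ⟨fun α β => (Nat.unpair (Nat.log 2 (osc (f α) (f β)))).1, ?_⟩
  intro n a J hJ hpc k
  obtain ⟨C, hC⟩ := osc_tuples hι hf a J hJ hpc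
  set E : ℕ := Nat.pair k C with hE
  have hCE : C ≤ E := Nat.right_le_pair k C
  obtain ⟨d, hd, j, hj, hdj, h⟩ := hC (2 ^ E)
  refine ⟨d, hd, j, hj, hdj, fun p q => ⟨(h p q).1, ?_⟩⟩
  obtain ⟨-, h1, h2⟩ := h p q
  have h3 : Nat.log 2 (osc (f (a d p)) (f (a j q))) = E := by
    refine Nat.log_eq_of_pow_le_of_lt_pow h1 ?_
    have h4 : E < 2 ^ E := Nat.lt_two_pow_self
    rw [pow_succ]
    omega
  simp only [h3, hE, Nat.unpair_pair]

end Pool.Agent.Lib.MP_8c4e2c_gt.BN
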