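import Pool.Agent.Lib.MP_8c4e2c_gt.BN.Space

/-!
# All finite powers of the space are hereditarily Lindelof
-/

set_option autoImplicit false

namespace Pool.Agent.Lib.MP_8c4e2c_gt.BN

open Set Filter Topology

variable {ι : Type} [LinearOrder ι]

lemma exists_res {α : Type} [Finite α] (s : α → ℕ → Bool) :
    ∃ k : ℕ, ∀ p q, (∀ m < k, s p m = s q m) → s p = s q := by
  classical
  have h1 : ∀ p q, ∃ k : ℕ, (∀ m < k, s p m = s q m) → s p = s q := by
    intro p q
    by_cases h : s p = s q
    · exact ⟨0, fun _ => h⟩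
    · obtain ⟨m, hm⟩ := Function.ne_iff.1 h
      exact ⟨m + 1, fun h' => absurd (h' m (Nat.lt_succ_self m)) hm⟩
  choose k hk using h1
  have := Fintype.ofFinite α
  refine ⟨Finset.univ.sup fun p => Finset.univ.sup fun q => k p q, fun p q h => hk p q fun m hm =>
    h m (hm.trans_le ?_)⟩
  calc k p q ≤ Finset.univ.sup fun q => k p q := Finset.le_sup (f := fun q => k p q) (Finset.mem_univ q)
    _ ≤ _ := Finset.le_sup (f := fun p => Finset.univ.sup fun q => k p q) (Finset.mem_univ p)

theorem hl_pi [WellFoundedLT ι] [Uncountable ι] (hι : ∀ i : ι, (Iic i).Countable)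
    (c : ι → ι → ℕ) (hc : IsStrongColoring c) (r : ι → ℕ → Bool) (hr : Function.Injective r)
    (dec : ℕ → Tab) (hdec : Function.Surjective dec) (B : Set (ℕ → Bool)) (n : ℕ) :
    @HereditarilyLindelofSpace (Fin n → Pt ι) (@Pi.topologicalSpace _ _ fun _ => topo c r dec B) := by
  classical
  let _ : TopologicalSpace (Pt ι) := topo c r dec B
  refine hl_criterion (fun i => (hι i).mono Iio_subset_Iic_self) fun x U hU hxU => ?_
  -- basic neighbourhoods
  have h1 : ∀ i, ∃ (F : Finset ι) (m : ℕ), ∀ y : Fin n → Pt ι,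
      (∀ l, y l ∈ Nb c r dec B (x i l) F m) → y ∈ U i := fun i =>
    exists_Nb_pi c r dec B (U i) (hU i) (x i) (hxU i)
  choose F m hFm using h1
  set G : ι → Finset ι := fun i => F i ∪ Finset.univ.image fun l => (x i l).δ with hG
  have hFG : ∀ i, F i ⊆ G i := fun i => Finset.subset_union_left
  have hδG : ∀ i l, (x i l).δ ∈ G i := fun i l =>
    Finset.mem_union_right _ (Finset.mem_image.2 ⟨l, Finset.mem_univ _, rfl⟩)
  have huniv : ¬ (univ : Set ι).Countable := fun h => not_countable (α := ι) (countable_univ_iff.1 h)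
  obtain ⟨R, J1, N, -, hJ1, hR, hN, hpc⟩ := exists_root G univ huniv
  -- the tuples
  set n' : ℕ := N - R.card with hn'
  have hcard : ∀ i ∈ J1, (G i \ R).card = n' := by
    intro i hi
    rw [Finset.card_sdiff_of_subset (hR i hi), hN i hi]
  have ha : ∀ i, ∃ a : Fin n' → ι, i ∈ J1 → Function.Injective a ∧ ∀ ζ, (∃ p, a p = ζ) ↔ ζ ∈ G i \ R := by
    intro i
    by_cases hi : i ∈ J1
    · refine ⟨(G i \ R).orderEmbOfFin (hcard i hi), fun _ =>
        ⟨((G i \ R).orderEmbOfFin (hcard i hi)).injective, fun ζ => ?_⟩⟩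
      have h2 := Finset.range_orderEmbOfFin (G i \ R) (hcard i hi)
      show ζ ∈ range ((G i \ R).orderEmbOfFin (hcard i hi)) ↔ _
      rw [h2]
      exact Finset.mem_coe
    · exact ⟨fun _ => i, fun h => absurd h hi⟩
  choose a ha using ha
  have hpc1 : ∀ ζ, {i | i ∈ J1 ∧ ∃ p, a i p ≤ ζ}.Countable := by
    intro ζ
    have h2 : {i | i ∈ J1 ∧ ∃ p, a i p ≤ ζ} ⊆ ⋃ ζ' ∈ Iic ζ, {i | ζ' ∉ R ∧ i ∈ J1 ∧ ζ' ∈ G i} := by
      rintro i ⟨hi, p, hp⟩
      refine mem_biUnion (show a i p ∈ Iic ζ from hp) ?_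
      have h3 := ((ha i hi).2 (a i p)).1 ⟨p, rfl⟩
      rw [Finset.mem_sdiff] at h3
      exact ⟨h3.2, hi, h3.1⟩
    refine ((hι ζ).biUnion fun ζ' _ => ?_).mono h2
    by_cases h3 : ζ' ∈ R
    · convert countable_empty
      ext i
      simp [h3]
    · exact (hpc ζ' h3).mono fun i hi => hi.2
  -- above the root
  set J2 : Set ι := {i | i ∈ J1 ∧ ∀ ρ ∈ R, ∀ p, ρ < a i p} with hJ2
  have hJ2unc : ¬ J2.Countable := by
    intro h
    apply hJ1
    have h2 : J1 ⊆ J2 ∪ ⋃ ρ ∈ (R : Set ι), {i | i ∈ J1 ∧ ∃ p, a i p ≤ ρ} := by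
      intro i hi
      by_cases h3 : i ∈ J2
      · exact Or.inl h3
      · right
        have h4 : ∃ ρ ∈ R, ∃ p, a i p ≤ ρ := by
          by_contra hcon
          push Not at hcon
          exact h3 ⟨hi, hcon⟩
        obtain ⟨ρ, hρ, hp⟩ := h4
        exact mem_biUnion hρ ⟨hi, hp⟩
    exact (h.union (R.countable_toSet.biUnion fun ρ _ => hpc1 ρ)).mono h2
  -- the resolution
  have hres : ∀ i, ∃ K : ℕ, m i ≤ K ∧ (∀ p q, (∀ s < K, r (a i p) s = r (a i q) s) →
      r (a i p) = r (a i q)) ∧ ∀ l l', (∀ s < K, (x i l).z s = (x i l').z s) → (x i l).z = (x i l').z := by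
    intro i
    obtain ⟨K1, hK1⟩ := exists_res fun p => r (a i p)
    obtain ⟨K2, hK2⟩ := exists_res fun l => (x i l).z
    refine ⟨max (m i) (max K1 K2), le_max_left _ _, fun p q h => hK1 p q fun s hs => h s (by omega),
      fun l l' h => hK2 l l' fun s hs => h s (by omega)⟩
  choose K' hK1 hK2 hK3 using hres
  obtain ⟨K, hK⟩ := pigeon hJ2unc K'
  -- all finite data
  have hpos : ∀ i (l : Fin n), ∃ o : Option (Fin n'), (∀ q, o = some q → a i q = (x i l).δ) ∧
      (o = none → ∀ q, a i q ≠ (x i l).δ) := by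
    intro i l
    by_cases h : ∃ q, a i q = (x i l).δ
    · obtain ⟨q, hq⟩ := h
      refine ⟨some q, fun q' hq' => ?_, fun h => by simp at h⟩
      rw [← Option.some_injective _ hq']
      exact hq
    · push Not at h
      exact ⟨none, fun q hq => by simp at hq, fun _ => h⟩
  choose pos hpos1 hpos2 using hpos
  set data : ι → (Fin n → Option (Fin n')) × (Fin n → Option {ρ // ρ ∈ R}) ×
      (Fin n' → Fin K → Bool) × (Fin n → Fin K → Bool) × (Fin n → Fin K → Bool) ×
      (Fin n' → Fin n → Bool) × ({ρ // ρ ∈ R} → Fin n → Bool) := fun i =>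
    (pos i, (fun l => if h : (x i l).δ ∈ R then some ⟨(x i l).δ, h⟩ else none),
      (fun p => res K (r (a i p))), (fun l => res K (r (x i l).δ)), (fun l => res K (x i l).z),
      (fun p l => chi c r dec B (a i p) (x i l)), fun ρ l => chi c r dec B ρ.1 (x i l)) with hdata
  obtain ⟨D0, hD0⟩ := pigeon hK data
  set J3 : Set ι := {i | i ∈ {i | i ∈ J2 ∧ K' i = K} ∧ data i = D0} with hJ3
  have hJ3J1 : ∀ i ∈ J3, i ∈ J1 := fun i hi => hi.1.1.1
  have hJ3J2 : ∀ i ∈ J3, i ∈ J2 := fun i hi => hi.1.1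
  have hJ3K : ∀ i ∈ J3, K' i = K := fun i hi => hi.1.2
  -- a reference member
  obtain ⟨i0, hi0⟩ : ∃ i0, i0 ∈ J3 := by
    by_contra hcon
    push Not at hcon
    exact hD0 (by
      have : J3 = ∅ := eq_empty_of_forall_notMem hcon
      rw [this]
      exact countable_empty)
  have hsame : ∀ i ∈ J3, data i = data i0 := fun i hi => hi.2.trans hi0.2.symm
  have s1 : ∀ i ∈ J3, ∀ l, pos i l = pos i0 l := fun i hi l =>
    congrFun (congrArg (fun d => d.1) (hsame i hi)) l
  have s2 : ∀ i ∈ J3, ∀ l, (if h : (x i l).δ ∈ R then some (⟨(x i l).δ, h⟩ : {ρ // ρ ∈ R}) else none) =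
      if h : (x i0 l).δ ∈ R then some ⟨(x i0 l).δ, h⟩ else none := fun i hi l =>
    congrFun (congrArg (fun d => d.2.1) (hsame i hi)) l
  have s3 : ∀ i ∈ J3, ∀ p, res K (r (a i p)) = res K (r (a i0 p)) := fun i hi p =>
    congrFun (congrArg (fun d => d.2.2.1) (hsame i hi)) p
  have s4 : ∀ i ∈ J3, ∀ l, res K (r (x i l).δ) = res K (r (x i0 l).δ) := fun i hi l =>
    congrFun (congrArg (fun d => d.2.2.2.1) (hsame i hi)) l
  have s5 : ∀ i ∈ J3, ∀ l, res K (x i l).z = res K (x i0 l).z := fun i hi l =>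
    congrFun (congrArg (fun d => d.2.2.2.2.1) (hsame i hi)) l
  have s6 : ∀ i ∈ J3, ∀ p l, chi c r dec B (a i p) (x i l) = chi c r dec B (a i0 p) (x i0 l) :=
    fun i hi p l => congrFun (congrFun (congrArg (fun d => d.2.2.2.2.2.1) (hsame i hi)) p) l
  have s7 : ∀ i ∈ J3, ∀ ρ : {ρ // ρ ∈ R}, ∀ l, chi c r dec B ρ.1 (x i l) =
      chi c r dec B ρ.1 (x i0 l) :=
    fun i hi ρ l => congrFun (congrFun (congrArg (fun d => d.2.2.2.2.2.2) (hsame i hi)) ρ) l
  -- the table
  set h : (Fin K → Bool) → (Fin K → Bool) → (Fin K → Bool) → Bool := fun s t u =>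
    decide (∃ p q l, pos i0 l = some q ∧ res K (r (a i0 p)) = s ∧ res K (r (a i0 q)) = t ∧
      res K (x i0 l).z = u ∧ chi c r dec B (a i0 p) (x i0 l) = true) with hh
  obtain ⟨γ, hγ⟩ := hdec ⟨K, h⟩
  obtain ⟨d, hd, j, hj, hdj, hcol⟩ := hc n' a J3 hD0 (fun ζ => (hpc1 ζ).mono fun i hi =>
    And.intro (hJ3J1 i hi.1) hi.2) γ
  refine ⟨d, j, hdj, hFm d (x j) fun l => ⟨?_, ?_⟩⟩
  · intro k hk
    have hkK : k < K := by
      have := hK1 d
      rw [hJ3K d hd] at this
      omega
    constructor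
    · have h2 := congrFun ((s4 j hj l).trans (s4 d hd l).symm) ⟨k, hkK⟩
      exact h2
    · have h2 := congrFun ((s5 j hj l).trans (s5 d hd l).symm) ⟨k, hkK⟩
      exact h2
  · intro ξ hξ
    by_cases hξR : ξ ∈ R
    · exact (s7 j hj ⟨ξ, hξR⟩ l).trans (s7 d hd ⟨ξ, hξR⟩ l).symm
    · obtain ⟨p, hp⟩ := ((ha d (hJ3J1 d hd)).2 ξ).2 (Finset.mem_sdiff.2 ⟨hFG d hξ, hξR⟩)
      rw [← hp]
      rcases hposd : pos d l with _ | q
      · -- the index of the point is in the root
        have e1 := hpos2 d l hposd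
        have hδR : (x d l).δ ∈ R := by
          by_contra hcon
          obtain ⟨q, hq⟩ := ((ha d (hJ3J1 d hd)).2 (x d l).δ).2
            (Finset.mem_sdiff.2 ⟨hδG d l, hcon⟩)
          exact e1 q hq
        have e2 := (s2 j hj l).trans (s2 d hd l).symm
        rw [dif_pos hδR] at e2
        have hδj : (x j l).δ = (x d l).δ := by
          by_cases h3 : (x j l).δ ∈ R
          · rw [dif_pos h3] at e2
            have h4 := Option.some_injective _ e2
            exact congrArg Subtype.val h4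
          · rw [dif_neg h3] at e2
            simp at e2
        have e3 : (x d l).δ < a d p := (hJ3J2 d hd).2 _ hδR p
        have e4 : ∀ y : Pt ι, y.δ < a d p → chi c r dec B (a d p) y = false := by
          intro y hy
          unfold chi
          rw [if_neg (not_lt.2 hy.le), if_neg hy.ne']
        rw [e4 (x j l) (by rw [hδj]; exact e3), e4 (x d l) e3]
      · have e1 : a d q = (x d l).δ := hpos1 d l q hposd
        have hposj : pos j l = some q := by rw [s1 j hj l, ← s1 d hd l, hposd]
        have hpos0 : pos i0 l = some q := by rw [← s1 d hd l, hposd]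
        have e2 : a j q = (x j l).δ := hpos1 j l q hposj
        obtain ⟨hlt, hcc⟩ := hcol p q
        have e3 : chi c r dec B (a d p) (x j l) =
            h (res K (r (a d p))) (res K (r (a j q))) (res K (x j l).z) := by
          unfold chi
          rw [← e2, if_pos hlt, hcc, hγ]
        rw [e3, s3 d hd p, s3 j hj q, s5 j hj l, s6 d hd p l]
        -- the table has the right value
        have e4 : (∃ p' q' l', pos i0 l' = some q' ∧ res K (r (a i0 p')) = res K (r (a i0 p)) ∧
            res K (r (a i0 q')) = res K (r (a i0 q)) ∧ res K (x i0 l').z = res K (x i0 l).z ∧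
            chi c r dec B (a i0 p') (x i0 l') = true) ↔
            chi c r dec B (a i0 p) (x i0 l) = true := by
          constructor
          · rintro ⟨p', q', l', f1, f2, f3, f4, f5⟩
            have hKi0 : K' i0 = K := hJ3K i0 hi0
            have inj := (ha i0 (hJ3J1 i0 hi0)).1
            have g1 : p' = p := by
              refine inj (hr (hK2 i0 p' p fun s hs => ?_))
              rw [hKi0] at hs
              exact congrFun f2 ⟨s, hs⟩
            have g2 : q' = q := by
              refine inj (hr (hK2 i0 q' q fun s hs => ?_))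
              rw [hKi0] at hs
              exact congrFun f3 ⟨s, hs⟩
            have g3 : (x i0 l').z = (x i0 l).z := by
              refine hK3 i0 l' l fun s hs => ?_
              rw [hKi0] at hs
              exact congrFun f4 ⟨s, hs⟩
            have g4 : (x i0 l').δ = (x i0 l).δ := by
              rw [← hpos1 i0 l' q' f1, ← hpos1 i0 l q hpos0, g2]
            have g5 : x i0 l' = x i0 l := by
              rcases hx1 : x i0 l' with ⟨δ1, z1⟩
              rcases hx2 : x i0 l with ⟨δ2, z2⟩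
              rw [hx1, hx2] at g3 g4
              simp only at g3 g4
              rw [g3, g4]
            rw [← g1, ← g5]
            exact f5
          · intro f5
            exact ⟨p, q, l, hpos0, rfl, rfl, rfl, f5⟩
        simp only [hh]
        by_cases hv : chi c r dec B (a i0 p) (x i0 l) = true
        · rw [hv, decide_eq_true_iff]
          exact e4.2 hv
        · have hv' : chi c r dec B (a i0 p) (x i0 l) = false := by simpa using hv
          rw [hv', decide_eq_false_iff_not]
          exact fun h' => hv (e4.1 h')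

end Pool.Agent.Lib.MP_8c4e2c_gt.BN
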