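import Pool.Agent.Lib.MP_8c4e2c_gt.BN.Space

/-!
# Nonmeagre sets give unbounded families
-/

set_option autoImplicit false

namespace Pool.Agent.Lib.MP_8c4e2c_gt.BN

open Set Filter

/-- the distance from `n` to the next `true` -/
noncomputable def gap (x : ℕ → Bool) (n : ℕ) : ℕ := sInf {k | x (n + k) = true}

lemma isNowhereDense_gap (g : ℕ → ℕ) (m : ℕ) :
    IsNowhereDense {x : ℕ → Bool | ∀ n, m ≤ n → gap x n ≤ g n} := by
  unfold IsNowhereDense
  rw [eq_empty_iff_forall_notMem]
  intro x hx
  obtain ⟨K, hK⟩ := exists_cyl _ isOpen_interior x hx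
  set n : ℕ := max K m with hn
  set y : ℕ → Bool := fun k => if k < n then x k else decide (k = n + g n + 1) with hy
  have hy1 : y ∈ closure {x : ℕ → Bool | ∀ n, m ≤ n → gap x n ≤ g n} := by
    refine interior_subset (hK y fun k hk => ?_)
    have h1 : k < n := by omega
    simp only [hy, if_pos h1]
  set V : Set (ℕ → Bool) := ⋂ k ∈ Finset.range (n + g n + 2), {w | w k = y k} with hV
  have hVo : IsOpen V := by
    refine isOpen_biInter_finset fun k _ => ?_
    have h2 : Continuous fun z : ℕ → Bool => z k := continuous_apply k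
    exact (isOpen_discrete ({y k} : Set Bool)).preimage h2
  have hyV : y ∈ V := mem_iInter₂.2 fun k _ => rfl
  obtain ⟨w, hwV, hw⟩ := mem_closure_iff.1 hy1 V hVo hyV
  have hw1 : ∀ k < n + g n + 2, w k = y k := fun k hk =>
    mem_iInter₂.1 hwV k (Finset.mem_range.2 hk)
  have h1 := hw n (le_max_right _ _)
  have h2 : gap w n = g n + 1 := by
    unfold gap
    apply le_antisymm
    · refine Nat.sInf_le ?_
      show w (n + (g n + 1)) = true
      rw [hw1 _ (by omega)]
      simp only [hy]
      rw [if_neg (by omega)]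
      simp only [decide_eq_true_iff]
      omega
    · refine le_csInf ⟨g n + 1, ?_⟩ ?_
      · show w (n + (g n + 1)) = true
        rw [hw1 _ (by omega)]
        simp only [hy]
        rw [if_neg (by omega)]
        simp only [decide_eq_true_iff]
        omega
      · intro k hk
        by_contra hcon
        have hk1 : w (n + k) = true := hk
        rw [hw1 _ (by omega)] at hk1
        simp only [hy] at hk1
        rw [if_neg (by omega), decide_eq_true_iff] at hk1
        omega
  omega

theorem exists_gap_of_nonmeagre (A : Set (ℕ → Bool)) (hA : ¬ IsMeagre A) (g : ℕ → ℕ) :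
    ∃ x ∈ A, ¬ ∀ᶠ n in atTop, gap x n ≤ g n := by
  by_contra hcon
  push Not at hcon
  apply hA
  have h1 : A ⊆ ⋃ m : ℕ, {x : ℕ → Bool | ∀ n, m ≤ n → gap x n ≤ g n} := by
    intro x hx
    obtain ⟨m, hm⟩ := eventually_atTop.1 (hcon x hx)
    exact mem_iUnion.2 ⟨m, hm⟩
  exact (isMeagre_iUnion fun m => (isNowhereDense_gap g m).isMeagre).mono h1

end Pool.Agent.Lib.MP_8c4e2c_gt.BN
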