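import Pool.Agent.Lib.MP_8c4e2c_gt.BN.HL

/-!
# Sequentially closed sets of continuous functions on the space
-/

set_option autoImplicit false

namespace Pool.Agent.Lib.MP_8c4e2c_gt.BN

open Set Filter Topology

variable {ι : Type} [LinearOrder ι]

/-- a set of points of the Cantor space that is not measurable -/
lemma exists_not_measurableSet : ∃ B : Set (ℕ → Bool), ¬ MeasurableSet B := by
  by_contra hcon
  push Not at hcon
  set b := MeasurableSpace.countableGeneratingSet (ℕ → Bool) with hb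
  have hbc : b.Countable := MeasurableSpace.countable_countableGeneratingSet
  have h1 : Cardinal.mk b ≤ Cardinal.continuum :=
    (Cardinal.le_aleph0_iff_set_countable.2 hbc).trans Cardinal.aleph0_le_continuum
  have h2 := MeasurableSpace.cardinal_measurableSet_le_continuum h1
  have h3 : {t : Set (ℕ → Bool) | @MeasurableSet (ℕ → Bool) (MeasurableSpace.generateFrom b) t} =
      univ := by
    rw [eq_univ_iff_forall]
    intro t
    have h4 : MeasurableSpace.generateFrom b = (inferInstance : MeasurableSpace (ℕ → Bool)) :=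
      MeasurableSpace.generateFrom_countableGeneratingSet
    show @MeasurableSet (ℕ → Bool) (MeasurableSpace.generateFrom b) t
    rw [h4]
    exact hcon t
  rw [h3, Cardinal.mk_univ, Cardinal.mk_set] at h2
  have h5 : Cardinal.mk (ℕ → Bool) = Cardinal.continuum := by simp
  rw [h5] at h2
  exact absurd h2 (not_le.2 (Cardinal.cantor _))

section Fibre

variable (c : ι → ι → ℕ) (r : ι → ℕ → Bool) (dec : ℕ → Tab) (B : Set (ℕ → Bool))

lemma continuous_fibre_chi (ξ δ : ι) (h : ξ ≠ δ) :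
    Continuous fun z : ℕ → Bool => chi c r dec B ξ ⟨δ, z⟩ := by
  unfold chi
  by_cases h1 : ξ < δ
  · simp only [h1, if_true]
    have h2 : Continuous fun z : ℕ → Bool => res (dec (c ξ δ)).1 z :=
      continuous_pi fun m => continuous_apply _
    exact (continuous_of_discreteTopology
      (f := (dec (c ξ δ)).2 (res _ (r ξ)) (res _ (r δ)))).comp h2
  · simp only [h1, if_false, h]
    exact continuous_const

lemma isOpen_fibre_Nb (x : Pt ι) (F : Finset ι) (m : ℕ) (δ : ι) (h : δ ∉ F) :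
    IsOpen {z : ℕ → Bool | (⟨δ, z⟩ : Pt ι) ∈ Nb c r dec B x F m} := by
  have e : {z : ℕ → Bool | (⟨δ, z⟩ : Pt ι) ∈ Nb c r dec B x F m} = (⋂ k ∈ Finset.range m,
      ({z | r δ k = r x.δ k} ∩ {z | z k = x.z k})) ∩
      ⋂ ξ ∈ F, {z | chi c r dec B ξ ⟨δ, z⟩ = chi c r dec B ξ x} := by
    ext y
    simp only [Nb, mem_ofPred_eq, mem_inter_iff, mem_iInter, Finset.mem_range]
  rw [e]
  refine IsOpen.inter ?_ ?_
  · refine isOpen_biInter_finset fun k _ => IsOpen.inter ?_ ?_
    · exact isOpen_const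
    · have h2 : Continuous fun z : ℕ → Bool => z k := continuous_apply k
      exact (isOpen_discrete ({x.z k} : Set Bool)).preimage h2
  · refine isOpen_biInter_finset fun ξ hξ => ?_
    exact (isOpen_discrete ({chi c r dec B ξ x} : Set Bool)).preimage
      (continuous_fibre_chi c r dec B ξ δ fun h' => h (h' ▸ hξ))

lemma hl_one (h : @HereditarilyLindelofSpace (Fin 1 → Pt ι)
    (@Pi.topologicalSpace _ _ fun _ => topo c r dec B)) :
    @HereditarilyLindelofSpace (Pt ι) (topo c r dec B) := by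
  let _ : TopologicalSpace (Pt ι) := topo c r dec B
  refine HereditarilyLindelofSpace.of_forall_isOpen fun s _ => ?_
  have h1 : IsLindelof ((fun x : Fin 1 → Pt ι => x 0) ⁻¹' s) := HereditarilyLindelofSpace.isLindelof _
  have h2 := h1.image (continuous_apply (A := fun _ : Fin 1 => Pt ι) 0)
  have h3 : (fun x : Fin 1 → Pt ι => x 0) '' ((fun x : Fin 1 → Pt ι => x 0) ⁻¹' s) = s := by
    refine image_preimage_eq _ fun x => ⟨fun _ => x, rfl⟩
  rwa [h3] at h2

lemma exists_fibre_open (hl : @HereditarilyLindelofSpace (Pt ι) (topo c r dec B))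
    (G : Set (Pt ι)) (hG : IsOpen[topo c r dec B] G) :
    ∃ E : Set ι, E.Countable ∧ ∀ δ, δ ∉ E → IsOpen {z : ℕ → Bool | (⟨δ, z⟩ : Pt ι) ∈ G} := by
  let _ : TopologicalSpace (Pt ι) := topo c r dec B
  have h1 : ∀ x : G, ∃ (F : Finset ι) (m : ℕ), Nb c r dec B x.1 F m ⊆ G := fun x =>
    exists_Nb c r dec B G hG x.1 x.2
  choose F m hFm using h1
  obtain ⟨T, hT, hTG⟩ := eq_open_union_countable (fun x : G => Nb c r dec B x.1 (F x) (m x))
    fun x => isOpen_Nb c r dec B x.1 (F x) (m x)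
  have hG1 : ⋃ x : G, Nb c r dec B x.1 (F x) (m x) = G := by
    apply Subset.antisymm
    · exact iUnion_subset fun x => hFm x
    · intro y hy
      exact mem_iUnion.2 ⟨⟨y, hy⟩, mem_Nb c r dec B y _ _⟩
  rw [hG1] at hTG
  refine ⟨⋃ x ∈ T, (F x : Set ι), hT.biUnion fun x _ => (F x).countable_toSet, fun δ hδ => ?_⟩
  have e : {z : ℕ → Bool | (⟨δ, z⟩ : Pt ι) ∈ G} =
      ⋃ x ∈ T, {z : ℕ → Bool | (⟨δ, z⟩ : Pt ι) ∈ Nb c r dec B x.1 (F x) (m x)} := by
    ext z
    have h3 : (⟨δ, z⟩ : Pt ι) ∈ G ↔ (⟨δ, z⟩ : Pt ι) ∈ ⋃ x ∈ T, Nb c r dec B x.1 (F x) (m x) := by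
      rw [hTG]
    simp only [mem_iUnion, mem_ofPred_eq, exists_prop] at h3 ⊢
    exact h3
  rw [e]
  refine isOpen_biUnion fun x hx => isOpen_fibre_Nb c r dec B x.1 (F x) (m x) δ fun h => hδ ?_
  exact mem_biUnion hx h

lemma exists_fibre_continuous (hl : @HereditarilyLindelofSpace (Pt ι) (topo c r dec B))
    (f : Pt ι → ℝ) (hf : @Continuous _ _ (topo c r dec B) _ f) :
    ∃ E : Set ι, E.Countable ∧ ∀ δ, δ ∉ E → Continuous fun z : ℕ → Bool => f ⟨δ, z⟩ := by
  let _ : TopologicalSpace (Pt ι) := topo c r dec B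
  have hb := TopologicalSpace.isBasis_countableBasis ℝ
  have hbc := TopologicalSpace.countable_countableBasis ℝ
  have h1 : ∀ b ∈ TopologicalSpace.countableBasis ℝ, ∃ E : Set ι, E.Countable ∧
      ∀ δ, δ ∉ E → IsOpen {z : ℕ → Bool | (⟨δ, z⟩ : Pt ι) ∈ f ⁻¹' b} := fun b hbb =>
    exists_fibre_open c r dec B hl (f ⁻¹' b) ((hb.isOpen hbb).preimage hf)
  choose! E hE1 hE2 using h1
  refine ⟨⋃ b ∈ TopologicalSpace.countableBasis ℝ, E b, hbc.biUnion hE1, fun δ hδ => ?_⟩
  rw [hb.continuous_iff]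
  intro b hbb
  refine hE2 b hbb δ fun h => hδ ?_
  exact mem_biUnion hbb h

/-- every countable set of continuous functions is contained in a proper sequentially closed set -/
theorem exists_seqClosed [Uncountable ι]
    (hl : @HereditarilyLindelofSpace (Pt ι) (topo c r dec B)) (hB : ¬ MeasurableSet B) :
    let _ : TopologicalSpace (Pt ι) := topo c r dec B
    ∀ D : Set {f : Pt ι → ℝ // Continuous f}, D.Countable →
      ∃ C : Set {f : Pt ι → ℝ // Continuous f}, D ⊆ C ∧ IsSeqClosed C ∧ C ≠ univ := by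
  intro _ D hD
  have h1 : ∀ f : {f : Pt ι → ℝ // Continuous f}, ∃ E : Set ι, E.Countable ∧
      ∀ δ, δ ∉ E → Continuous fun z : ℕ → Bool => f.1 ⟨δ, z⟩ := fun f =>
    exists_fibre_continuous c r dec B hl f.1 f.2
  choose E hE1 hE2 using h1
  have h2 : (⋃ f ∈ D, E f).Countable := hD.biUnion fun f _ => hE1 f
  obtain ⟨δ, hδ⟩ : ∃ δ, δ ∉ ⋃ f ∈ D, E f := by
    by_contra hcon
    push Not at hcon
    rw [eq_univ_of_forall hcon, countable_univ_iff] at h2
    exact not_countable (α := ι) h2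
  refine ⟨{f | Measurable fun z : ℕ → Bool => f.1 ⟨δ, z⟩}, fun f hf => ?_, ?_, ?_⟩
  · refine (hE2 f δ fun h => hδ ?_).measurable
    exact mem_biUnion hf h
  · intro u g hu hlim
    refine measurable_of_tendsto_metrizable (f := fun n z => (u n).1 ⟨δ, z⟩) (fun n => hu n) ?_
    rw [tendsto_pi_nhds]
    intro z
    have h3 : Tendsto (fun n => (u n).1) atTop (𝓝 g.1) :=
      (continuous_subtype_val.tendsto g).comp hlim
    exact (tendsto_pi_nhds.1 h3) ⟨δ, z⟩
  · intro hcon
    have h3 : Continuous fun x : Pt ι => if chi c r dec B δ x = true then (1 : ℝ) else 0 :=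
      (continuous_of_discreteTopology (f := fun b : Bool => if b = true then (1 : ℝ) else 0)).comp
        (continuous_chi c r dec B δ)
    have h4 : (⟨_, h3⟩ : {f : Pt ι → ℝ // Continuous f}) ∈
        {f : {f : Pt ι → ℝ // Continuous f} | Measurable fun z : ℕ → Bool => f.1 ⟨δ, z⟩} := by
      rw [hcon]
      exact mem_univ _
    have h5 : Measurable fun z : ℕ → Bool =>
        if chi c r dec B δ (⟨δ, z⟩ : Pt ι) = true then (1 : ℝ) else 0 := h4
    apply hB
    have h6 : B = (fun z : ℕ → Bool =>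
        if chi c r dec B δ (⟨δ, z⟩ : Pt ι) = true then (1 : ℝ) else 0) ⁻¹' {1} := by
      ext z
      simp [chi]
    rw [h6]
    exact h5 (measurableSet_singleton 1)

end Fibre

end Pool.Agent.Lib.MP_8c4e2c_gt.BN
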