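import Mathlib

/-!
# Oscillations of an unbounded chain of functions

For an unbounded `≤*`-chain `f` of monotone functions, indexed by an uncountable well order with
countable initial segments, the number of oscillations takes, on every uncountable family of
`n`-tuples, values in `[K, K + C]` for all pairs simultaneously, with `C` not depending on `K`.
-/

set_option autoImplicit false

namespace Pool.Agent.Lib.MP_8c4e2c_gt.BN

open Set Filter

/-- number of oscillations -/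
noncomputable def osc (u v : ℕ → ℕ) : ℕ := {l | u l ≤ v l ∧ v (l + 1) < u (l + 1)}.ncard

variable {ι : Type} [LinearOrder ι]

/-- an unbounded chain of monotone functions -/
structure UnbChain (f : ι → ℕ → ℕ) : Prop where
  mono : ∀ i, Monotone (f i)
  le : ∀ i j, i < j → ∀ᶠ l in atTop, f i l ≤ f j l
  unb : ∀ g : ℕ → ℕ, ¬ ∀ i, ∀ᶠ l in atTop, f i l ≤ g l

lemma exists_above [Uncountable ι] (hι : ∀ i : ι, (Iic i).Countable) (C : Set ι)
    (hC : C.Countable) : ∃ γ : ι, ∀ i ∈ C, i < γ := by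
  have h1 : (⋃ i ∈ C, Iic i).Countable := hC.biUnion fun i _ => hι i
  have h2 : (⋃ i ∈ C, Iic i) ≠ univ := by
    intro h
    rw [h] at h1
    exact not_countable (α := ι) (countable_univ_iff.1 h1)
  obtain ⟨γ, hγ⟩ := (ne_univ_iff_exists_notMem _).1 h2
  refine ⟨γ, fun i hi => ?_⟩
  by_contra hcon
  push Not at hcon
  exact hγ (mem_biUnion hi hcon)

lemma pigeon {α β : Type*} [Countable β] {J : Set α} (hJ : ¬ J.Countable) (φ : α → β) :
    ∃ c : β, ¬ {i | i ∈ J ∧ φ i = c}.Countable := by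
  by_contra hcon
  push Not at hcon
  apply hJ
  have h1 : J ⊆ ⋃ c : β, {i | i ∈ J ∧ φ i = c} := fun i hi => mem_iUnion.2 ⟨φ i, hi, rfl⟩
  exact (countable_iUnion hcon).mono h1

/-- the restriction of the tuple to the levels below `L` -/
def nd {n : ℕ} (f : ι → ℕ → ℕ) (a : ι → Fin n → ι) (L : ℕ) (i : ι) : Fin n → Fin L → ℕ :=
  fun p l => f (a i p) l

omit [LinearOrder ι] in
lemma nd_apply {n : ℕ} {f : ι → ℕ → ℕ} {a : ι → Fin n → ι} {L : ℕ} {i j : ι}
    (h : nd f a L i = nd f a L j) (p : Fin n) (l : ℕ) (hl : l < L) :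
    f (a i p) l = f (a j p) l := by
  have := congrFun (congrFun h p) ⟨l, hl⟩
  exact this

omit [LinearOrder ι] in
lemma nd_mono {n : ℕ} {f : ι → ℕ → ℕ} {a : ι → Fin n → ι} {L L' : ℕ} {i j : ι}
    (h : nd f a L i = nd f a L j) (hL : L' ≤ L) : nd f a L' i = nd f a L' j := by
  funext p l
  exact nd_apply h p l (l.2.trans_le hL)

/-- every node is passed by uncountably many members -/
def Pruned {n : ℕ} (f : ι → ℕ → ℕ) (a : ι → Fin n → ι) (J : Set ι) : Prop :=
  ∀ i ∈ J, ∀ L, ¬ {k | k ∈ J ∧ nd f a L k = nd f a L i}.Countable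

omit [LinearOrder ι] in
lemma exists_pruned {n : ℕ} (f : ι → ℕ → ℕ) (a : ι → Fin n → ι) (J : Set ι) (hJ : ¬ J.Countable) :
    ∃ J' ⊆ J, ¬ J'.Countable ∧ Pruned f a J' := by
  set J' : Set ι := {i | i ∈ J ∧ ∀ L, ¬ {k | k ∈ J ∧ nd f a L k = nd f a L i}.Countable} with hJ'
  have hdiff : (J \ J').Countable := by
    have h1 : J \ J' ⊆ ⋃ L : ℕ, ⋃ σ : Fin n → Fin L → ℕ,
        {k | (k ∈ J ∧ nd f a L k = σ) ∧ {k | k ∈ J ∧ nd f a L k = σ}.Countable} := by
      rintro i ⟨hi, hi'⟩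
      have h2 : ∃ L, {k | k ∈ J ∧ nd f a L k = nd f a L i}.Countable := by
        by_contra hcon
        push Not at hcon
        exact hi' ⟨hi, hcon⟩
      obtain ⟨L, hL⟩ := h2
      exact mem_iUnion.2 ⟨L, mem_iUnion.2 ⟨nd f a L i, ⟨hi, rfl⟩, hL⟩⟩
    refine (countable_iUnion fun L => countable_iUnion fun σ => ?_).mono h1
    by_cases h : {k | k ∈ J ∧ nd f a L k = σ}.Countable
    · exact h.mono fun k hk => hk.1
    · convert countable_empty
      ext k
      simp only [mem_ofPred_eq, mem_empty_iff_false, iff_false, not_and]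
      exact fun _ => h
  refine ⟨J', fun i hi => hi.1, ?_, ?_⟩
  · intro h
    apply hJ
    refine (h.union hdiff).mono fun i hi => ?_
    by_cases h' : i ∈ J'
    · exact Or.inl h'
    · exact Or.inr ⟨hi, h'⟩
  · intro i hi L h
    apply hi.2 L
    refine (h.union hdiff).mono fun k hk => ?_
    by_cases h' : k ∈ J'
    · exact Or.inl ⟨h', hk.2⟩
    · exact Or.inr ⟨hk.1, h'⟩

/-- an uncountable subfamily is unbounded at some level -/
lemma exists_level {f : ι → ℕ → ℕ}
    (hf : UnbChain f) (b : ι → ι) (S : Set ι) (hS : ¬ S.Countable)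
    (hb : ∀ ζ, {i | i ∈ S ∧ b i ≤ ζ}.Countable) :
    ∃ l, ∀ v, ∃ k ∈ S, v ≤ f (b k) l := by
  by_contra hcon
  push Not at hcon
  choose g hg using hcon
  apply hf.unb g
  intro i
  have h1 : ∃ k ∈ S, i < b k := by
    by_contra hcon
    push Not at hcon
    exact hS ((hb i).mono fun (k : ι) (hk : k ∈ S) => (⟨hk, hcon k hk⟩ : k ∈ S ∧ b k ≤ i))
  obtain ⟨k, hk, hik⟩ := h1
  filter_upwards [hf.le i (b k) hik] with l hl
  exact hl.trans (hg l k hk).le

/-- iterating a growth function -/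
lemma exists_gap {N : ℕ} {α : Type*} (S : Set α) (φ : α → Fin N → ℕ)
    (P : ℕ → α → Prop)
    (hP : ∀ w, ∃ k ∈ S, P w k) (hmono : ∀ w w' k, w ≤ w' → P w' k → P w k) :
    ∃ T, ∀ v, ∃ k ∈ S, P v k ∧ ∀ q, ¬ (T < φ k q ∧ φ k q < v) := by
  by_contra hcon
  push Not at hcon
  choose V hV using hcon
  -- the thresholds
  set t : ℕ → ℕ := fun s => V^[s] 0 with ht
  have htsucc : ∀ s, t (s + 1) = V (t s) := fun s => by
    simp only [ht, Function.iterate_succ_apply']
  obtain ⟨w, hw⟩ : ∃ w, ∀ s ≤ N + 1, t s ≤ w := by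
    refine ⟨(Finset.range (N + 2)).sup t, fun s hs => Finset.le_sup (f := t) ?_⟩
    rw [Finset.mem_range]
    omega
  obtain ⟨k, hkS, hk⟩ := hP w
  have h1 : ∀ s : Fin (N + 1), ∃ q, t s < φ k q ∧ φ k q < t (s + 1) := by
    intro s
    have h2 := hV (t s) k hkS (hmono _ _ _ (by
      rw [← htsucc]
      exact hw _ (by omega)) hk)
    rw [htsucc]
    exact h2
  choose q hq1 hq2 using h1
  have hmonoT : ∀ s s' : ℕ, s ≤ s' → s' ≤ N + 1 → t s ≤ t s' := by
    intro s s' hss'
    induction s', hss' using Nat.le_induction with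
    | base => intro _; exact le_rfl
    | succ m hm ih =>
      intro hm'
      have h3 := (hq1 ⟨m, by omega⟩).trans (hq2 ⟨m, by omega⟩)
      exact (ih (by omega)).trans h3.le
  have hinj : Function.Injective q := by
    intro s s' hss'
    by_contra hne
    rcases lt_or_gt_of_ne hne with h | h
    · have h3 : t (s + 1) ≤ t s' := hmonoT _ _ (by omega) (by omega)
      have h4 := hq2 s
      have h5 := hq1 s'
      rw [hss'] at h4
      omega
    · have h3 : t (s' + 1) ≤ t s := hmonoT _ _ (by omega) (by omega)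
      have h4 := hq2 s'
      have h5 := hq1 s
      rw [hss'] at h5
      omega
  have := Fintype.card_le_of_injective q hinj
  simp at this

/-- jump data above a node -/
lemma exists_jump [Uncountable ι] (hι : ∀ i : ι, (Iic i).Countable) {f : ι → ℕ → ℕ}
    (hf : UnbChain f) {n : ℕ} (a : ι → Fin n → ι) (p0 : Fin n) (J : Set ι)
    (hP : Pruned f a J) (m0 : ℕ) (hdom : ∀ i ∈ J, ∀ p l, m0 ≤ l → f (a i p0) l ≤ f (a i p) l)
    (hpc : ∀ ζ, {i | i ∈ J ∧ a i p0 ≤ ζ}.Countable) (i0 : ι) (hi0 : i0 ∈ J) (L : ℕ) (hL : m0 ≤ L) :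
    ∃ (T : ℕ) (lev : Fin n → ℕ), (∀ p, L ≤ lev p) ∧ ∀ v, ∃ i ∈ J, nd f a L i = nd f a L i0 ∧
      (∀ p l, l < lev p → f (a i p) l ≤ T) ∧ ∀ p, v ≤ f (a i p) (lev p) := by
  set S : Set ι := {k | k ∈ J ∧ nd f a L k = nd f a L i0} with hS
  obtain ⟨l, hl⟩ := exists_level hf (fun k => a k p0) S (hP i0 hi0 L)
    (fun ζ => (hpc ζ).mono fun k hk => And.intro hk.1.1 hk.2)
  have hLl : L ≤ l := by
    by_contra hcon
    push Not at hcon
    obtain ⟨k, hk, hk'⟩ := hl (f (a i0 p0) l + 1)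
    have := nd_apply hk.2 p0 l hcon
    omega
  -- choose a member without values in a gap
  have hgap := exists_gap (N := n * (l + 1)) S
    (fun k q => f (a k (finProdFinEquiv.symm q).1) (finProdFinEquiv.symm q).2.1)
    (fun v k => ∀ p, v ≤ f (a k p) l) (fun w => by
      obtain ⟨k, hk, hk'⟩ := hl w
      exact ⟨k, hk, fun p => hk'.trans (hdom k hk.1 p l (hL.trans hLl))⟩)
    (fun w w' k hw h p => hw.trans (h p))
  obtain ⟨T, hT⟩ := hgap
  have hT' : ∀ v, ∃ k ∈ S, (∀ p, v ≤ f (a k p) l) ∧ ∀ p, ∀ l' ≤ l, ¬ (T < f (a k p) l' ∧ f (a k p) l' < v) := by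
    intro v
    obtain ⟨k, hk, h1, h2⟩ := hT v
    refine ⟨k, hk, h1, fun p l' hl' => ?_⟩
    have h3 := h2 (finProdFinEquiv (p, ⟨l', by omega⟩))
    simpa using h3
  -- the levels of the jumps
  have hlev : ∀ v, ∃ (lv : Fin n → Fin (l + 1)), ∃ k ∈ S,
      (∀ p l', l' < (lv p : ℕ) → f (a k p) l' ≤ T) ∧ ∀ p, v ≤ f (a k p) (lv p) := by
    intro v
    obtain ⟨k, hk, h1, h2⟩ := hT' (max v (T + 1))
    have h3 : ∀ p, ∃ l', T < f (a k p) l' := fun p => ⟨l, by
      have := h1 p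
      omega⟩
    classical
    have h4 : ∀ p, Nat.find (h3 p) ≤ l := fun p => Nat.find_min' (h3 p) (by
      have := h1 p
      omega)
    refine ⟨fun p => ⟨Nat.find (h3 p), by have := h4 p; omega⟩, k, hk, ?_, ?_⟩
    · intro p l' hl'
      have := Nat.find_min (h3 p) hl'
      omega
    · intro p
      have h5 := h2 p (Nat.find (h3 p)) (h4 p)
      have h6 := Nat.find_spec (h3 p)
      have h7 : max v (T + 1) ≤ f (a k p) (Nat.find (h3 p)) := by
        by_contra hcon
        exact h5 ⟨h6, by omega⟩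
      exact (le_max_left _ _).trans h7
  choose lv k hkS hk1 hk2 using hlev
  -- one choice of levels occurs for arbitrarily large bounds
  obtain ⟨lev, hlev⟩ : ∃ lev : Fin n → Fin (l + 1), ∀ w, ∃ v, w ≤ v ∧ lv v = lev := by
    by_contra hcon
    push Not at hcon
    choose w hw using hcon
    set W : ℕ := Finset.univ.sup w with hW
    exact hw (lv W) W (Finset.le_sup (Finset.mem_univ _)) rfl
  refine ⟨T, fun p => lev p, ?_, ?_⟩
  · intro p
    by_contra hcon
    push Not at hcon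
    obtain ⟨v, hv, hv'⟩ := hlev (f (a i0 p) (lev p) + 1)
    have h1 := hk2 v p
    rw [hv'] at h1
    have h2 := nd_apply (hkS v).2 p (lev p) hcon
    omega
  · intro v
    obtain ⟨v', hv, hv'⟩ := hlev v
    refine ⟨k v', (hkS v').1, (hkS v').2, ?_, ?_⟩
    · intro p l' hl'
      refine hk1 v' p l' ?_
      rw [hv']
      exact hl'
    · intro p
      have := hk2 v' p
      rw [hv'] at this
      exact hv.trans this

/-- number of oscillations from level `M` on -/
noncomputable def oscFrom (M : ℕ) (u v : ℕ → ℕ) : ℕ :=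
  {l | M ≤ l ∧ u l ≤ v l ∧ v (l + 1) < u (l + 1)}.ncard

lemma finite_osc {u v : ℕ → ℕ} (h : ∀ᶠ l in atTop, u l ≤ v l) (M : ℕ) :
    {l | M ≤ l ∧ u l ≤ v l ∧ v (l + 1) < u (l + 1)}.Finite := by
  obtain ⟨N, hN⟩ := eventually_atTop.1 h
  refine (finite_lt_nat N).subset fun l hl => ?_
  by_contra hcon
  have h1 : N ≤ l + 1 := by
    simp only [mem_ofPred_eq, not_lt] at hcon
    omega
  have := hN (l + 1) h1
  have h2 := hl.2.2
  omega

/-- the alternation argument -/
lemma main_rec [Uncountable ι] (hι : ∀ i : ι, (Iic i).Countable) {f : ι → ℕ → ℕ}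
    (hf : UnbChain f) {n : ℕ} (a : ι → Fin n → ι) (p0 : Fin n) (J J2 D : Set ι) (hDJ : D ⊆ J)
    (hJ2 : J2 ⊆ J) (hP : Pruned f a J) (hP2 : Pruned f a J2) (m0 : ℕ)
    (hdom : ∀ i ∈ J, ∀ p l, m0 ≤ l → f (a i p0) l ≤ f (a i p) l)
    (hpc : ∀ ζ, {i | i ∈ J ∧ a i p0 ≤ ζ}.Countable)
    (hD : ∀ i ∈ J, ∀ L, ∃ d ∈ D, nd f a L d = nd f a L i) (γ : ι)
    (hDγ : ∀ d ∈ D, ∀ p, ∀ᶠ l in atTop, f (a d p) l ≤ f γ l) (m1 : ℕ)
    (hγJ : ∀ j ∈ J2, ∀ q l, m1 ≤ l → f γ l ≤ f (a j q) l) (K : ℕ) :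
    ∀ (i0 : ι) (L1 : ℕ) (j0 : ι) (Lj T : ℕ) (lev : Fin n → ℕ) (M : ℕ), i0 ∈ J → j0 ∈ J2 →
      m0 ≤ M → Lj ≤ M → (∀ q, lev q ≤ M) → M < L1 →
      (∀ v, ∃ j ∈ J2, nd f a Lj j = nd f a Lj j0 ∧ (∀ q l, l < lev q → f (a j q) l ≤ T) ∧
        ∀ q, v ≤ f (a j q) (lev q)) →
      ∃ d ∈ D, ∃ j ∈ J2, nd f a L1 d = nd f a L1 i0 ∧ nd f a Lj j = nd f a Lj j0 ∧
        (∀ q l, l < lev q → f (a j q) l ≤ T) ∧
        (∀ p q l, lev q ≤ l → l ≤ M → f (a d p) l ≤ f (a j q) l) ∧
        ∀ p q, oscFrom M (f (a d p)) (f (a j q)) = K := by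
  induction K with
  | zero =>
    intro i0 L1 j0 Lj T lev M hi0 hj0 hmM hLj hlev hML hjump
    obtain ⟨d, hd, hdn⟩ := hD i0 hi0 L1
    -- a level from which everything of `d` is below `γ`
    have h1 : ∀ᶠ l in atTop, ∀ p, f (a d p) l ≤ f γ l := Filter.eventually_all.2 fun p => hDγ d hd p
    obtain ⟨m, hm⟩ := eventually_atTop.1 h1
    set m2 : ℕ := max m m1 with hm2
    obtain ⟨j, hj, hjn, hjT, hjv⟩ := hjump (Finset.univ.sup fun p => f (a d p) m2)
    have hle : ∀ p q l, lev q ≤ l → f (a d p) l ≤ f (a j q) l := by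
      intro p q l hl
      rcases le_total l m2 with h2 | h2
      · calc f (a d p) l ≤ f (a d p) m2 := hf.mono _ h2
          _ ≤ Finset.univ.sup fun p => f (a d p) m2 :=
              Finset.le_sup (f := fun p => f (a d p) m2) (Finset.mem_univ p)
          _ ≤ f (a j q) (lev q) := hjv q
          _ ≤ f (a j q) l := hf.mono _ hl
      · calc f (a d p) l ≤ f γ l := hm l ((le_max_left _ _).trans h2) p
          _ ≤ f (a j q) l := hγJ j hj q l ((le_max_right _ _).trans h2)
    refine ⟨d, hd, j, hj, hdn, hjn, hjT, fun p q l hl _ => hle p q l hl, fun p q => ?_⟩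
    unfold oscFrom
    rw [ncard_eq_zero (finite_osc (eventually_atTop.2 ⟨lev q, fun l hl => hle p q l hl⟩) M)]
    ext l
    simp only [mem_ofPred_eq, mem_empty_iff_false, iff_false, not_and, not_lt]
    intro hl _
    exact hle p q (l + 1) ((hlev q).trans (hl.trans (Nat.le_succ l)))
  | succ K ih =>
    intro i0 L1 j0 Lj T lev M hi0 hj0 hmM hLj hlev hML hjump
    -- jump data of the `i`-node
    obtain ⟨T1, lev1, hlev1, hjump1⟩ := exists_jump hι hf a p0 J hP m0 hdom hpc i0 hi0 L1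
      (hmM.trans hML.le)
    set v : ℕ := max T1 (Finset.univ.sup fun p => f (a i0 p) L1) + 1 with hv
    obtain ⟨j1, hj1, hj1n, hj1T, hj1v⟩ := hjump v
    -- jump data of the `j`-node
    set L1' : ℕ := max (Finset.univ.sup lev1) L1 + 1 with hL1'
    have hlev1' : ∀ p, lev1 p < L1' := by
      intro p
      have := Finset.le_sup (f := lev1) (Finset.mem_univ p)
      omega
    obtain ⟨T2, lev2, hlev2, hjump2⟩ := exists_jump hι hf a p0 J2 hP2 m0
      (fun i hi => hdom i (hJ2 hi)) (fun ζ => (hpc ζ).mono fun k hk => And.intro (hJ2 hk.1) hk.2) j1 hj1 L1'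
      (by omega)
    set v1 : ℕ := max T2 (Finset.univ.sup fun q => f (a j1 q) L1') + 1 with hv1
    obtain ⟨i1, hi1, hi1n, hi1T, hi1v⟩ := hjump1 v1
    set M2 : ℕ := Finset.univ.sup lev2 with hM2
    have hlev2' : ∀ q, lev2 q ≤ M2 := fun q => Finset.le_sup (f := lev2) (Finset.mem_univ q)
    have hL1M2 : L1' ≤ M2 := (hlev2 p0).trans (hlev2' p0)
    obtain ⟨d, hd, j, hj, hdn, hjn, hjT, hle, hosc⟩ := ih i1 (M2 + 1) j1 L1' T2 lev2 M2 hi1 hj1
      (by omega) hL1M2 hlev2' (Nat.lt_succ_self _) hjump2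
    -- values
    have hd1 : ∀ p l, l ≤ M2 → f (a d p) l = f (a i1 p) l := fun p l hl =>
      nd_apply hdn p l (by omega)
    have hd0 : ∀ p l, l < L1 → f (a d p) l = f (a i0 p) l := fun p l hl => by
      rw [hd1 p l (by omega)]
      exact nd_apply hi1n p l hl
    have hj1' : ∀ q l, l < L1' → f (a j q) l = f (a j1 q) l := fun q l hl => nd_apply hjn q l hl
    -- region 1 : below the jump of `d`
    have hr1 : ∀ p q l, lev q ≤ l → l < lev1 p → f (a d p) l ≤ f (a j q) l := by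
      intro p q l h1 h2
      have h3 : v ≤ f (a j q) l := by
        rw [hj1' q l (h2.trans (hlev1' p))]
        exact (hj1v q).trans (hf.mono _ h1)
      refine le_trans ?_ h3
      rcases Nat.lt_or_ge l L1 with h4 | h4
      · rw [hd0 p l h4]
        have h5 : f (a i0 p) l ≤ f (a i0 p) L1 := hf.mono _ h4.le
        have h6 := Finset.le_sup (f := fun p => f (a i0 p) L1) (Finset.mem_univ p)
        omega
      · rw [hd1 p l (by have := hlev1' p; omega)]
        have := hi1T p l h2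
        omega
    -- region 2 : between the jump of `d` and the next jump of `j`
    have hr2 : ∀ p q l, lev1 p ≤ l → l < lev2 q → f (a j q) l < f (a d p) l := by
      intro p q l h1 h2
      have h3 : v1 ≤ f (a d p) l := by
        rw [hd1 p l (h2.le.trans (hlev2' q))]
        exact (hi1v p).trans (hf.mono _ h1)
      refine lt_of_lt_of_le ?_ h3
      rcases Nat.lt_or_ge l L1' with h4 | h4
      · rw [hj1' q l h4]
        have h5 : f (a j1 q) l ≤ f (a j1 q) L1' := hf.mono _ h4.le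
        have h6 := Finset.le_sup (f := fun q => f (a j1 q) L1') (Finset.mem_univ q)
        omega
      · have := hjT q l h2
        omega
    refine ⟨d, hd, j, hj, ?_, ?_, ?_, ?_, ?_⟩
    · rw [← hi1n]
      exact nd_mono hdn (by omega)
    · rw [← hj1n]
      exact nd_mono hjn (by omega)
    · intro q l hl
      rw [hj1' q l (by have := hlev q; omega)]
      exact hj1T q l hl
    · intro p q l h1 h2
      exact hr1 p q l h1 (by have := hlev1 p; omega)
    · intro p q
      rw [← hosc p q]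
      unfold oscFrom
      have hfin : {l | M2 ≤ l ∧ f (a d p) l ≤ f (a j q) l ∧
          f (a j q) (l + 1) < f (a d p) (l + 1)}.Finite := by
        refine finite_osc ?_ M2
        filter_upwards [hDγ d hd p, eventually_ge_atTop m1] with l h1 h2
        exact h1.trans (hγJ j hj q l h2)
      have hins : {l | M ≤ l ∧ f (a d p) l ≤ f (a j q) l ∧ f (a j q) (l + 1) < f (a d p) (l + 1)} =
          insert (lev1 p - 1) {l | M2 ≤ l ∧ f (a d p) l ≤ f (a j q) l ∧
            f (a j q) (l + 1) < f (a d p) (l + 1)} := by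
        have g1 := hlev1 p
        have g2 := hlev1' p
        have g3 := hlev2 q
        have g4 := hlev2' q
        have g5 := hlev q
        ext l
        simp only [mem_insert_iff, mem_ofPred_eq]
        constructor
        · rintro ⟨h1, h2, h3⟩
          rcases Nat.lt_or_ge l M2 with h4 | h4
          · left
            by_contra hne
            rcases Nat.lt_or_ge (l + 1) (lev1 p) with h5 | h5
            · have := hr1 p q (l + 1) (by omega) h5
              omega
            · -- `l ≥ lev1 p`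
              have h6 : lev1 p ≤ l := by omega
              rcases Nat.lt_or_ge l (lev2 q) with h7 | h7
              · have := hr2 p q l h6 h7
                omega
              · have := hle p q (l + 1) (by omega) (by omega)
                omega
          · exact Or.inr ⟨h4, h2, h3⟩
        · rintro (rfl | ⟨h1, h2, h3⟩)
          · refine ⟨by omega, hr1 p q _ (by omega) (by omega), ?_⟩
            rw [Nat.sub_add_cancel (by omega)]
            exact hr2 p q _ le_rfl (by omega)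
          · exact ⟨by omega, h2, h3⟩
      rw [hins, ncard_insert_of_notMem ?_ hfin]
      rintro ⟨h1, -, -⟩
      have g1 := hlev1' p
      omega

/-- On every uncountable point-countable family of `n`-tuples the oscillation takes values in
`[K, K + C]` simultaneously for all pairs, for each `K`, with the same `C`. -/
theorem osc_tuples [Uncountable ι] (hι : ∀ i : ι, (Iic i).Countable) {f : ι → ℕ → ℕ}
    (hf : UnbChain f) {n : ℕ} (a : ι → Fin n → ι) (J : Set ι) (hJ : ¬ J.Countable)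
    (hpc : ∀ ζ, {i | i ∈ J ∧ ∃ p, a i p ≤ ζ}.Countable) :
    ∃ C : ℕ, ∀ K : ℕ, ∃ d ∈ J, ∃ j ∈ J, d < j ∧ ∀ p q, a d p < a j q ∧
      K ≤ osc (f (a d p)) (f (a j q)) ∧ osc (f (a d p)) (f (a j q)) ≤ K + C := by
  rcases Nat.eq_zero_or_pos n with hn | hn
  · -- empty tuples
    subst hn
    have h1 : ∃ d, d ∈ J := by
      by_contra hcon
      push Not at hcon
      exact hJ (by
        have : J = ∅ := eq_empty_of_forall_notMem hcon
        rw [this]
        exact countable_empty)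
    obtain ⟨d, hd⟩ := h1
    have h2 : ∃ j ∈ J, d < j := by
      by_contra hcon
      push Not at hcon
      exact hJ ((hι d).mono fun k hk => hcon k hk)
    obtain ⟨j, hj, hdj⟩ := h2
    exact ⟨0, fun K => ⟨d, hd, j, hj, hdj, fun p => p.elim0⟩⟩
  -- the least coordinate and the level of domination
  have hmin : ∀ i, ∃ p0 : Fin n, ∃ m : ℕ, ∀ p l, m ≤ l → f (a i p0) l ≤ f (a i p) l := by
    intro i
    haveI : Nonempty (Fin n) := ⟨⟨0, hn⟩⟩
    obtain ⟨p0, hp0⟩ := Finite.exists_min (a i)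
    refine ⟨p0, ?_⟩
    have h1 : ∀ p, ∀ᶠ l in atTop, f (a i p0) l ≤ f (a i p) l := by
      intro p
      rcases eq_or_lt_of_le (hp0 p) with h | h
      · rw [h]
        exact Eventually.of_forall fun _ => le_rfl
      · exact hf.le _ _ h
    obtain ⟨m, hm⟩ := eventually_atTop.1 (Filter.eventually_all.2 h1)
    exact ⟨m, fun p l hl => hm l hl p⟩
  choose p0' m' hpm using hmin
  obtain ⟨⟨p0, m0⟩, hJa⟩ := pigeon hJ (fun i => (p0' i, m' i))
  obtain ⟨J', hJ'sub, hJ'unc, hP⟩ := exists_pruned f a _ hJa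
  have hJ'J : J' ⊆ J := fun i hi => (hJ'sub hi).1
  have hdom : ∀ i ∈ J', ∀ p l, m0 ≤ l → f (a i p0) l ≤ f (a i p) l := by
    intro i hi p l hl
    have h1 := (hJ'sub hi).2
    simp only [Prod.mk.injEq] at h1
    have h2 := hpm i p l
    rw [h1.1, h1.2] at h2
    exact h2 hl
  have hpc' : ∀ ζ, {i | i ∈ J' ∧ a i p0 ≤ ζ}.Countable := fun ζ =>
    (hpc ζ).mono fun i hi => And.intro (hJ'J hi.1) ⟨p0, hi.2⟩
  -- the countable dense family
  have hdense : ∀ L : ℕ, ∀ σ : Fin n → Fin L → ℕ, ∃ d : ι, (∃ i ∈ J', nd f a L i = σ) →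
      d ∈ J' ∧ nd f a L d = σ := by
    intro L σ
    by_cases h : ∃ i ∈ J', nd f a L i = σ
    · obtain ⟨i, hi, hi'⟩ := h
      exact ⟨i, fun _ => ⟨hi, hi'⟩⟩
    · obtain ⟨i⟩ : Nonempty ι := inferInstance
      exact ⟨i, fun h' => absurd h' h⟩
  choose e he using hdense
  set D : Set ι := {d | d ∈ J' ∧ ∃ L σ, e L σ = d} with hDdef
  have hDJ : D ⊆ J' := fun d hd => hd.1
  have hDc : D.Countable := by
    have h1 : D ⊆ ⋃ L : ℕ, range (e L) := by
      rintro d ⟨-, L, σ, rfl⟩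
      exact mem_iUnion.2 ⟨L, mem_range_self σ⟩
    exact (countable_iUnion fun L => countable_range _).mono h1
  have hD : ∀ i ∈ J', ∀ L, ∃ d ∈ D, nd f a L d = nd f a L i := by
    intro i hi L
    obtain ⟨h1, h2⟩ := he L (nd f a L i) ⟨i, hi, rfl⟩
    exact ⟨_, ⟨h1, L, _, rfl⟩, h2⟩
  -- an index above everything in `D`
  obtain ⟨γ, hγ⟩ := exists_above hι (D ∪ ⋃ d ∈ D, range (a d))
    (hDc.union (hDc.biUnion fun d _ => countable_range _))
  have hγD : ∀ d ∈ D, d < γ := fun d hd => hγ d (Or.inl hd)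
  have hγa : ∀ d ∈ D, ∀ p, a d p < γ := fun d hd p =>
    hγ _ (Or.inr (mem_biUnion hd (mem_range_self p)))
  have hDγ : ∀ d ∈ D, ∀ p, ∀ᶠ l in atTop, f (a d p) l ≤ f γ l := fun d hd p =>
    hf.le _ _ (hγa d hd p)
  -- the upper part
  set J1 : Set ι := {j | j ∈ J' ∧ γ < j ∧ ∀ q, γ < a j q} with hJ1
  have hJ1unc : ¬ J1.Countable := by
    intro h
    apply hJ'unc
    have h1 : J' ⊆ J1 ∪ (Iic γ ∪ {i | i ∈ J ∧ ∃ p, a i p ≤ γ}) := by
      intro i hi
      by_cases h2 : i ≤ γ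
      · exact Or.inr (Or.inl h2)
      by_cases h3 : ∃ p, a i p ≤ γ
      · exact Or.inr (Or.inr ⟨hJ'J hi, h3⟩)
      push Not at h2 h3
      exact Or.inl ⟨hi, h2, h3⟩
    exact (h.union ((hι γ).union (hpc γ))).mono h1
  have hlev : ∀ j, ∃ m : ℕ, j ∈ J1 → ∀ q l, m ≤ l → f γ l ≤ f (a j q) l := by
    intro j
    by_cases hj : j ∈ J1
    · have h1 : ∀ q, ∀ᶠ l in atTop, f γ l ≤ f (a j q) l := fun q => hf.le _ _ (hj.2.2 q)
      obtain ⟨m, hm⟩ := eventually_atTop.1 (Filter.eventually_all.2 h1)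
      exact ⟨m, fun _ q l hl => hm l hl q⟩
    · exact ⟨0, fun h => absurd h hj⟩
  choose m1' hm1' using hlev
  obtain ⟨m1, hJ1a⟩ := pigeon hJ1unc m1'
  obtain ⟨J2, hJ2sub, hJ2unc, hP2⟩ := exists_pruned f a _ hJ1a
  have hJ2J1 : J2 ⊆ J1 := fun i hi => (hJ2sub hi).1
  have hJ2J : J2 ⊆ J' := fun i hi => (hJ2J1 hi).1
  have hγJ : ∀ j ∈ J2, ∀ q l, m1 ≤ l → f γ l ≤ f (a j q) l := by
    intro j hj q l hl
    have h1 := (hJ2sub hj).2
    refine hm1' j (hJ2J1 hj) q l ?_
    rw [h1]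
    exact hl
  -- the starting point
  obtain ⟨j0, hj0⟩ : ∃ j0, j0 ∈ J2 := by
    by_contra hcon
    push Not at hcon
    exact hJ2unc (by
      have : J2 = ∅ := eq_empty_of_forall_notMem hcon
      rw [this]
      exact countable_empty)
  obtain ⟨T, lev, hlev0, hjump⟩ := exists_jump hι hf a p0 J2 hP2 m0 (fun i hi => hdom i (hJ2J hi))
    (fun ζ => (hpc' ζ).mono fun k hk => And.intro (hJ2J hk.1) hk.2) j0 hj0 m0 le_rfl
  set M : ℕ := Finset.univ.sup lev with hM
  have hlevM : ∀ q, lev q ≤ M := fun q => Finset.le_sup (f := lev) (Finset.mem_univ q)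
  have hm0M : m0 ≤ M := (hlev0 p0).trans (hlevM p0)
  refine ⟨M, fun K => ?_⟩
  obtain ⟨d, hd, j, hj, -, -, -, -, hosc⟩ := main_rec hι hf a p0 J' J2 D hDJ hJ2J hP hP2 m0 hdom
    hpc' hD γ hDγ m1 hγJ K j0 (M + 1) j0 m0 T lev M (hJ2J hj0) hj0 hm0M hm0M hlevM
    (Nat.lt_succ_self _) hjump
  refine ⟨d, hJ'J (hDJ hd), j, hJ'J (hJ2J hj), (hγD d hd).trans (hJ2J1 hj).2.1, fun p q => ?_⟩
  refine ⟨(hγa d hd p).trans ((hJ2J1 hj).2.2 q), ?_⟩
  have h1 := hosc p q
  have hev : ∀ᶠ l in atTop, f (a d p) l ≤ f (a j q) l := by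
    filter_upwards [hDγ d hd p, eventually_ge_atTop m1] with l h2 h3
    exact h2.trans (hγJ j hj q l h3)
  have hfin0 := finite_osc hev 0
  have hfinM := finite_osc hev M
  have hfin : {l | f (a d p) l ≤ f (a j q) l ∧ f (a j q) (l + 1) < f (a d p) (l + 1)}.Finite :=
    hfin0.subset fun l hl => ⟨Nat.zero_le _, hl⟩
  unfold osc
  unfold oscFrom at h1
  constructor
  · rw [← h1]
    exact ncard_le_ncard (fun l hl => hl.2) hfin
  · have h2 : {l | f (a d p) l ≤ f (a j q) l ∧ f (a j q) (l + 1) < f (a d p) (l + 1)} ⊆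
        {l | M ≤ l ∧ f (a d p) l ≤ f (a j q) l ∧ f (a j q) (l + 1) < f (a d p) (l + 1)} ∪
          ((Finset.range M : Finset ℕ) : Set ℕ) := by
      intro l hl
      rcases Nat.lt_or_ge l M with h3 | h3
      · exact Or.inr (by simpa using h3)
      · exact Or.inl ⟨h3, hl⟩
    calc {l | f (a d p) l ≤ f (a j q) l ∧ f (a j q) (l + 1) < f (a d p) (l + 1)}.ncard ≤ _ :=
          ncard_le_ncard h2 (hfinM.union (Finset.finite_toSet _))
      _ ≤ _ := ncard_union_le _ _
      _ ≤ K + M := by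
          rw [h1, ncard_coe_finset, Finset.card_range]

end Pool.Agent.Lib.MP_8c4e2c_gt.BN
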