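import Pool.Agent.Lib.MP_8c4e2c_gt.BN.Chain

/-!
# Colorings of pairs and families of pairwise disjoint finite sets
-/

set_option autoImplicit false

namespace Pool.Agent.Lib.MP_8c4e2c_gt.BN

open Set Filter

variable {ι : Type} [LinearOrder ι]

/-- Every uncountable family of pairwise disjoint finite sets has, for every color `k`, two members
one above the other such that all pairs between them have color `k`. -/
def IsPrOne (c : ι → ι → ℕ) : Prop :=
  ∀ 𝒜 : Set (Finset ι), ¬ 𝒜.Countable → 𝒜.PairwiseDisjoint id → ∀ k : ℕ,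
    ∃ a ∈ 𝒜, ∃ b ∈ 𝒜, ∀ α ∈ a, ∀ β ∈ b, α < β ∧ c α β = k

theorem isPrOne_of_isStrongColoring (hmk : Cardinal.mk ι = Cardinal.aleph 1)
    (hι : ∀ i : ι, (Iic i).Countable) (c : ι → ι → ℕ) (hc : IsStrongColoring c) : IsPrOne c := by
  have hunc : Uncountable ι := by
    rw [← Cardinal.aleph0_lt_mk_iff, hmk]
    exact Cardinal.aleph0_lt_aleph_one
  intro 𝒜 h𝒜 hdisj k
  obtain ⟨n, hn⟩ := pigeon h𝒜 Finset.card
  set 𝒜' : Set (Finset ι) := {a | a ∈ 𝒜 ∧ a.card = n} with h𝒜'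
  have h1 : Cardinal.mk ι ≤ Cardinal.mk 𝒜' := by
    rw [hmk]
    have h2 : Cardinal.aleph0 < Cardinal.mk 𝒜' := by
      rw [← not_le, Cardinal.le_aleph0_iff_set_countable]
      exact hn
    rw [← Cardinal.succ_aleph0]
    exact Order.succ_le_of_lt h2
  obtain ⟨φ⟩ := (Cardinal.le_def _ _).1 h1
  set a : ι → Fin n → ι := fun i p => (φ i).1.orderEmbOfFin (φ i).2.2 p with ha
  have hmem : ∀ i ζ, ζ ∈ (φ i).1 ↔ ∃ p, a i p = ζ := by
    intro i ζ
    have h2 := Finset.range_orderEmbOfFin (φ i).1 (φ i).2.2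
    have h3 : ζ ∈ range ((φ i).1.orderEmbOfFin (φ i).2.2) ↔ ζ ∈ (φ i).1 := by
      rw [h2]
      exact Finset.mem_coe
    exact h3.symm
  have hsub : ∀ ζ, {i | ζ ∈ (φ i).1}.Subsingleton := by
    intro ζ i hi j hj
    by_contra hij
    have h2 : (φ i).1 ≠ (φ j).1 := fun h => hij (φ.injective (Subtype.ext h))
    have h3 := hdisj (φ i).2.1 (φ j).2.1 h2
    exact Finset.disjoint_left.1 h3 hi hj
  obtain ⟨d, -, j, -, hdj, h⟩ := hc n a univ (fun h => not_countable (α := ι)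
    (countable_univ_iff.1 h)) (fun ζ => by
      have h2 : {i | i ∈ univ ∧ ∃ p, a i p ≤ ζ} ⊆ ⋃ ζ' ∈ Iic ζ, {i | ζ' ∈ (φ i).1} := by
        rintro i ⟨-, p, hp⟩
        exact mem_biUnion (show a i p ∈ Iic ζ from hp) ((hmem i (a i p)).2 ⟨p, rfl⟩)
      exact ((hι ζ).biUnion fun ζ' _ => (hsub ζ').countable).mono h2) k
  refine ⟨(φ d).1, (φ d).2.1, (φ j).1, (φ j).2.1, fun α hα β hβ => ?_⟩
  obtain ⟨p, rfl⟩ := (hmem d α).1 hα
  obtain ⟨q, rfl⟩ := (hmem j β).1 hβ
  exact h p q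

theorem isStrongColoring_of_isPrOne [WellFoundedLT ι] [Uncountable ι]
    (hι : ∀ i : ι, (Iic i).Countable) (c : ι → ι → ℕ) (hc : IsPrOne c) : IsStrongColoring c := by
  classical
  intro n a J hJ hpc k
  rcases Nat.eq_zero_or_pos n with rfl | hn
  · have h1 : J.Infinite := fun h => hJ h.countable
    obtain ⟨x, hx, y, hy, hxy⟩ := h1.nontrivial
    rcases lt_or_gt_of_ne hxy with h | h
    · exact ⟨x, hx, y, hy, h, fun p => p.elim0⟩
    · exact ⟨y, hy, x, hx, h, fun p => p.elim0⟩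
  have hstep : ∀ (i : ι) (h : ∀ j, j < i → ι), ∃ i' ∈ J, (∀ j (hj : j < i), h j hj < i') ∧
      ∀ j (hj : j < i), ∀ p q, a (h j hj) p < a i' q := by
    intro i h
    have : Countable (Iio i) := ((hι i).mono Iio_subset_Iic_self).to_subtype
    obtain ⟨γ1, hγ1⟩ := exists_above hι (range fun j : Iio i => h j.1 j.2) (countable_range _)
    obtain ⟨γ2, hγ2⟩ := exists_above hι (range fun x : Iio i × Fin n => a (h x.1.1 x.1.2) x.2)
      (countable_range _)
    by_contra hcon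
    push Not at hcon
    apply hJ
    refine ((hι γ1).union (hpc γ2)).mono fun i' hi' => ?_
    by_contra hi''
    rw [mem_union, not_or] at hi''
    obtain ⟨hi1, hi2⟩ := hi''
    have hi1' : γ1 < i' := not_le.1 hi1
    have hi2' : ∀ q, γ2 < a i' q := by
      intro q
      by_contra hq
      exact hi2 ⟨hi', q, not_lt.1 hq⟩
    obtain ⟨j, hj, p, q, hpq⟩ := hcon i' hi' fun j hj => (hγ1 _ ⟨⟨j, hj⟩, rfl⟩).trans hi1'
    exact absurd ((hγ2 _ ⟨(⟨j, hj⟩, p), rfl⟩).trans (hi2' q)) (not_lt.2 hpq)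
  choose G hG1 hG2 hG3 using hstep
  set e : ι → ι := (wellFounded_lt (α := ι)).fix G with he
  have hfix : ∀ i, e i = G i fun j _ => e j := fun i => (wellFounded_lt (α := ι)).fix_eq G i
  have e1 : ∀ i, e i ∈ J := fun i => by
    rw [hfix]
    exact hG1 _ _
  have e2 : ∀ j i, j < i → e j < e i := fun j i hji => by
    rw [hfix i]
    exact hG2 i (fun j _ => e j) j hji
  have e3 : ∀ j i, j < i → ∀ p q, a (e j) p < a (e i) q := fun j i hji p q => by
    rw [hfix i]
    exact hG3 i (fun j _ => e j) j hji p q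
  set g : ι → Finset ι := fun i => Finset.univ.image (a (e i)) with hg
  have hgm : ∀ i p, a (e i) p ∈ g i := fun i p => Finset.mem_image_of_mem _ (Finset.mem_univ p)
  have hgd : ∀ j i, j < i → Disjoint (g j) (g i) := by
    intro j i hji
    rw [Finset.disjoint_left]
    intro ζ h1 h2
    obtain ⟨p, -, rfl⟩ := Finset.mem_image.1 h1
    obtain ⟨q, -, hq⟩ := Finset.mem_image.1 h2
    exact absurd hq (e3 j i hji p q).ne'
  have hgd' : ∀ j i, j ≠ i → Disjoint (g j) (g i) := by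
    intro j i hji
    rcases lt_or_gt_of_ne hji with h | h
    · exact hgd j i h
    · exact (hgd i j h).symm
  have hginj : Function.Injective g := by
    intro i j hij
    by_contra hne
    have h1 := hgd' i j hne
    rw [hij] at h1
    exact Finset.disjoint_left.1 h1 (hgm j ⟨0, hn⟩) (hgm j ⟨0, hn⟩)
  obtain ⟨a', ha', b', hb', h⟩ := hc (range g) (fun h => not_countable (α := ι) (by
      rw [← image_univ] at h
      exact countable_univ_iff.1 (countable_of_injective_of_countable_image hginj.injOn h)))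
    (by
      rintro _ ⟨i, rfl⟩ _ ⟨j, rfl⟩ hij
      exact hgd' i j fun h => hij (by rw [h])) k
  obtain ⟨i, rfl⟩ := ha'
  obtain ⟨j, rfl⟩ := hb'
  have hij : i < j := by
    by_contra hcon
    rcases (not_lt.1 hcon).lt_or_eq with h1 | h1
    · exact absurd (h _ (hgm i ⟨0, hn⟩) _ (hgm j ⟨0, hn⟩)).1 (e3 j i h1 _ _).le.not_gt
    · rw [h1] at h
      exact lt_irrefl _ (h _ (hgm i ⟨0, hn⟩) _ (hgm i ⟨0, hn⟩)).1
  exact ⟨e i, e1 i, e j, e1 j, e2 i j hij, fun p q => h _ (hgm i p) _ (hgm j q)⟩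

end Pool.Agent.Lib.MP_8c4e2c_gt.BN
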