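import Pool.Agent.Lib.MP_8c4e2c_gt.BN.Chain

/-!
# The space attached to a strong coloring
-/

set_option autoImplicit false

namespace Pool.Agent.Lib.MP_8c4e2c_gt.BN

open Set Filter Topology

/-- the points of the space -/
structure Pt (ι : Type) where
  /-- the index of the fibre -/
  δ : ι
  /-- the point of the Cantor space -/
  z : ℕ → Bool

/-- finite tables -/
abbrev Tab : Type := Σ k : ℕ, ((Fin k → Bool) → (Fin k → Bool) → (Fin k → Bool) → Bool)

/-- restriction to the first `k` coordinates -/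
def res (k : ℕ) (z : ℕ → Bool) : Fin k → Bool := fun m => z m

variable {ι : Type} [LinearOrder ι]

open Classical in
/-- the coordinate functions -/
noncomputable def chi (c : ι → ι → ℕ) (r : ι → ℕ → Bool) (dec : ℕ → Tab) (B : Set (ℕ → Bool))
    (ξ : ι) (x : Pt ι) : Bool :=
  if ξ < x.δ then (dec (c ξ x.δ)).2 (res _ (r ξ)) (res _ (r x.δ)) (res _ x.z)
  else if ξ = x.δ then decide (x.z ∈ B) else false

/-- the map defining the topology -/
noncomputable def Phi (c : ι → ι → ℕ) (r : ι → ℕ → Bool) (dec : ℕ → Tab) (B : Set (ℕ → Bool))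
    (x : Pt ι) : (ℕ → Bool) × (ℕ → Bool) × (ι → Bool) :=
  (r x.δ, x.z, fun ξ => chi c r dec B ξ x)

/-- the topology -/
@[reducible] noncomputable def topo (c : ι → ι → ℕ) (r : ι → ℕ → Bool) (dec : ℕ → Tab)
    (B : Set (ℕ → Bool)) : TopologicalSpace (Pt ι) :=
  TopologicalSpace.induced (Phi c r dec B) inferInstance

section Basic

variable (c : ι → ι → ℕ) (r : ι → ℕ → Bool) (dec : ℕ → Tab) (B : Set (ℕ → Bool))

lemma Phi_injective (hr : Function.Injective r) : Function.Injective (Phi c r dec B) := by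
  rintro ⟨δ, z⟩ ⟨δ', z'⟩ h
  simp only [Phi, Prod.mk.injEq] at h
  obtain ⟨h1, h2, -⟩ := h
  rw [hr h1, h2]

lemma t35 (hr : Function.Injective r) : @T35Space (Pt ι) (topo c r dec B) := by
  let _ : TopologicalSpace (Pt ι) := topo c r dec B
  have h : IsEmbedding (Phi c r dec B) := ⟨⟨rfl⟩, Phi_injective c r dec B hr⟩
  exact h.t35Space

/-- basic neighbourhoods -/
def Nb (x : Pt ι) (F : Finset ι) (m : ℕ) : Set (Pt ι) :=
  {y | (∀ k < m, r y.δ k = r x.δ k ∧ y.z k = x.z k) ∧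
    ∀ ξ ∈ F, chi c r dec B ξ y = chi c r dec B ξ x}

lemma continuous_Phi : @Continuous _ _ (topo c r dec B) _ (Phi c r dec B) :=
  continuous_induced_dom

lemma continuous_chi (ξ : ι) : @Continuous _ _ (topo c r dec B) _ (chi c r dec B ξ) := by
  let _ : TopologicalSpace (Pt ι) := topo c r dec B
  have h := continuous_Phi c r dec B
  exact (continuous_apply ξ).comp (continuous_snd.comp (continuous_snd.comp h))

lemma isOpen_Nb (x : Pt ι) (F : Finset ι) (m : ℕ) : IsOpen[topo c r dec B] (Nb c r dec B x F m) := by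
  let _ : TopologicalSpace (Pt ι) := topo c r dec B
  have h := continuous_Phi c r dec B
  have h1 : Continuous fun y : Pt ι => r y.δ := continuous_fst.comp h
  have h2 : Continuous fun y : Pt ι => y.z := continuous_fst.comp (continuous_snd.comp h)
  have e : Nb c r dec B x F m = (⋂ k ∈ Finset.range m,
      ({y | r y.δ k = r x.δ k} ∩ {y | y.z k = x.z k})) ∩
      ⋂ ξ ∈ F, {y | chi c r dec B ξ y = chi c r dec B ξ x} := by
    ext y
    simp only [Nb, mem_ofPred_eq, mem_inter_iff, mem_iInter, Finset.mem_range]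
  rw [e]
  refine IsOpen.inter ?_ ?_
  · refine isOpen_biInter_finset fun k _ => IsOpen.inter ?_ ?_
    · exact (isOpen_discrete ({r x.δ k} : Set Bool)).preimage ((continuous_apply k).comp h1)
    · exact (isOpen_discrete ({x.z k} : Set Bool)).preimage ((continuous_apply k).comp h2)
  · refine isOpen_biInter_finset fun ξ _ => ?_
    exact (isOpen_discrete ({chi c r dec B ξ x} : Set Bool)).preimage (continuous_chi c r dec B ξ)

lemma mem_Nb (x : Pt ι) (F : Finset ι) (m : ℕ) : x ∈ Nb c r dec B x F m :=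
  ⟨fun _ _ => ⟨rfl, rfl⟩, fun _ _ => rfl⟩

lemma exists_cyl (O : Set (ℕ → Bool)) (hO : IsOpen O) (z : ℕ → Bool) (hz : z ∈ O) :
    ∃ m : ℕ, ∀ w : ℕ → Bool, (∀ k < m, w k = z k) → w ∈ O := by
  obtain ⟨I, u, hu, hsub⟩ := isOpen_pi_iff.1 hO z hz
  refine ⟨I.sup id + 1, fun w hw => hsub fun k hk => ?_⟩
  have h1 : k ≤ I.sup id := Finset.le_sup (f := id) hk
  rw [hw k (by omega)]
  exact (hu k hk).2

lemma exists_Nb (G : Set (Pt ι)) (hG : IsOpen[topo c r dec B] G) (x : Pt ι) (hx : x ∈ G) :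
    ∃ (F : Finset ι) (m : ℕ), Nb c r dec B x F m ⊆ G := by
  obtain ⟨V, hV, rfl⟩ := isOpen_induced_iff.1 hG
  obtain ⟨O1, O', hO1, hO', hx1, hx', hsub⟩ := isOpen_prod_iff.1 hV (Phi c r dec B x).1
    (Phi c r dec B x).2 hx
  obtain ⟨O2, O3, hO2, hO3, hx2, hx3, hsub'⟩ := isOpen_prod_iff.1 hO' (Phi c r dec B x).2.1
    (Phi c r dec B x).2.2 hx'
  obtain ⟨m1, hm1⟩ := exists_cyl O1 hO1 _ hx1
  obtain ⟨m2, hm2⟩ := exists_cyl O2 hO2 _ hx2
  obtain ⟨I, u, hu, hsubI⟩ := isOpen_pi_iff.1 hO3 _ hx3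
  refine ⟨I, max m1 m2, fun y hy => ?_⟩
  have h1 : (Phi c r dec B y).1 ∈ O1 := hm1 _ fun k hk => (hy.1 k (by omega)).1
  have h2 : (Phi c r dec B y).2.1 ∈ O2 := hm2 _ fun k hk => (hy.1 k (by omega)).2
  have h3 : (Phi c r dec B y).2.2 ∈ O3 := by
    refine hsubI fun ξ hξ => ?_
    have h4 : (Phi c r dec B y).2.2 ξ = (Phi c r dec B x).2.2 ξ := hy.2 ξ hξ
    rw [h4]
    exact (hu ξ hξ).2
  exact hsub (mk_mem_prod h1 (hsub' (mk_mem_prod h2 h3)))

lemma Nb_anti (x : Pt ι) {F F' : Finset ι} {m m' : ℕ} (hF : F ⊆ F') (hm : m ≤ m') :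
    Nb c r dec B x F' m' ⊆ Nb c r dec B x F m :=
  fun _ hy => ⟨fun k hk => hy.1 k (by omega), fun ξ hξ => hy.2 ξ (hF hξ)⟩

lemma exists_Nb_pi {n : ℕ} (G : Set (Fin n → Pt ι))
    (hG : IsOpen[@Pi.topologicalSpace _ _ fun _ => topo c r dec B] G)
    (x : Fin n → Pt ι) (hx : x ∈ G) :
    ∃ (F : Finset ι) (m : ℕ), ∀ y : Fin n → Pt ι, (∀ l, y l ∈ Nb c r dec B (x l) F m) → y ∈ G := by
  classical
  let _ : TopologicalSpace (Pt ι) := topo c r dec B
  obtain ⟨I, u, hu, hsub⟩ := isOpen_pi_iff.1 hG x hx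
  have h1 : ∀ l : Fin n, ∃ (F : Finset ι) (m : ℕ), l ∈ I → Nb c r dec B (x l) F m ⊆ u l := by
    intro l
    by_cases hl : l ∈ I
    · obtain ⟨F, m, h⟩ := exists_Nb c r dec B (u l) (hu l hl).1 (x l) (hu l hl).2
      exact ⟨F, m, fun _ => h⟩
    · exact ⟨∅, 0, fun h => absurd h hl⟩
  choose F m hFm using h1
  refine ⟨Finset.univ.biUnion F, Finset.univ.sup m, fun y hy => hsub fun l hl => ?_⟩
  refine hFm l hl (Nb_anti c r dec B (x l) ?_ ?_ (hy l))
  · exact Finset.subset_biUnion_of_mem F (Finset.mem_univ l)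
  · exact Finset.le_sup (Finset.mem_univ l)

end Basic

/-- a criterion for the hereditary Lindelof property -/
lemma hl_criterion [WellFoundedLT ι] (hι : ∀ i : ι, (Iio i).Countable) {Y : Type}
    [TopologicalSpace Y]
    (h : ∀ (x : ι → Y) (U : ι → Set Y), (∀ i, IsOpen (U i)) → (∀ i, x i ∈ U i) →
      ∃ i j, i < j ∧ x j ∈ U i) : HereditarilyLindelofSpace Y := by
  refine HereditarilyLindelofSpace.of_forall_isOpen fun s _ => ?_
  rw [isLindelof_iff_countable_subcover]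
  intro κ U hU hsU
  by_contra hcon
  push Not at hcon
  have h1 : ∀ t : Set κ, t.Countable → ∃ p : κ × Y, p.2 ∈ U p.1 ∧ ∀ k ∈ t, p.2 ∉ U k := by
    intro t ht
    obtain ⟨x, hx, hx'⟩ := not_subset.1 (hcon t ht)
    obtain ⟨k, hk⟩ := mem_iUnion.1 (hsU hx)
    refine ⟨(k, x), hk, fun k' hk' hxk => hx' ?_⟩
    exact mem_biUnion hk' hxk
  have hstep : ∀ (i : ι) (g : ∀ j, j < i → κ × Y), ∃ p : κ × Y, p.2 ∈ U p.1 ∧
      ∀ j (hj : j < i), p.2 ∉ U (g j hj).1 := by
    intro i g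
    have : Countable (Iio i) := (hι i).to_subtype
    obtain ⟨p, hp, hp'⟩ := h1 (range fun j : Iio i => (g j.1 j.2).1) (countable_range _)
    exact ⟨p, hp, fun j hj => hp' _ ⟨⟨j, hj⟩, rfl⟩⟩
  choose G hG1 hG2 using hstep
  set g : ι → κ × Y := (wellFounded_lt (α := ι)).fix G with hg
  have hfix : ∀ i, g i = G i fun j _ => g j := fun i => (wellFounded_lt (α := ι)).fix_eq G i
  have g1 : ∀ i, (g i).2 ∈ U (g i).1 := by
    intro i
    rw [hfix]
    exact hG1 _ _
  have g2 : ∀ i j, i < j → (g j).2 ∉ U (g i).1 := by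
    intro i j hij
    rw [hfix j]
    exact hG2 j (fun k _ => g k) i hij
  obtain ⟨i, j, hij, hx⟩ := h (fun i => (g i).2) (fun i => U (g i).1) (fun i => hU _) g1
  exact g2 i j hij hx

/-- a maximal root of an uncountable family of finite sets -/
lemma exists_root (G : ι → Finset ι) (J : Set ι) (hJ : ¬ J.Countable) :
    ∃ (R : Finset ι) (J1 : Set ι) (N : ℕ), J1 ⊆ J ∧ ¬ J1.Countable ∧ (∀ i ∈ J1, R ⊆ G i) ∧
      (∀ i ∈ J1, (G i).card = N) ∧ ∀ ζ, ζ ∉ R → {i | i ∈ J1 ∧ ζ ∈ G i}.Countable := by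
  classical
  obtain ⟨N, hN⟩ := pigeon hJ (fun i => (G i).card)
  set J0 : Set ι := {i | i ∈ J ∧ (G i).card = N} with hJ0
  set P : ℕ → Prop := fun k => ∃ R : Finset ι, R.card = k ∧ ¬ {i | i ∈ J0 ∧ R ⊆ G i}.Countable
    with hP
  have h0 : P 0 := by
    refine ⟨∅, rfl, fun h => hN ?_⟩
    refine h.mono fun i hi => ?_
    exact ⟨hi, Finset.empty_subset _⟩
  have hlast : ¬ P (N + 1) := by
    rintro ⟨R, hR, hR'⟩
    apply hR'
    have : {i | i ∈ J0 ∧ R ⊆ G i} = ∅ := by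
      ext i
      simp only [mem_ofPred_eq, mem_empty_iff_false, iff_false, not_and]
      intro hi hsub
      have h1 := Finset.card_le_card hsub
      have h2 : (G i).card = N := hi.2
      omega
    rw [this]
    exact countable_empty
  obtain ⟨k, hk, hk'⟩ : ∃ k, P k ∧ ¬ P (k + 1) := by
    by_contra hcon
    push Not at hcon
    have : ∀ k, P k := fun k => by
      induction k with
      | zero => exact h0
      | succ k ih => exact hcon k ih
    exact hlast (this _)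
  obtain ⟨R, hR, hRunc⟩ := hk
  refine ⟨R, {i | i ∈ J0 ∧ R ⊆ G i}, N, fun i hi => hi.1.1, hRunc, fun i hi => hi.2,
    fun i hi => hi.1.2, fun ζ hζ => ?_⟩
  by_contra hcon
  apply hk'
  refine ⟨insert ζ R, by rw [Finset.card_insert_of_notMem hζ, hR], fun h => hcon ?_⟩
  refine h.mono fun i hi => ?_
  exact ⟨hi.1.1, Finset.insert_subset hi.2 hi.1.2⟩

end Pool.Agent.Lib.MP_8c4e2c_gt.BN
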